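import Mathlib

set_option autoImplicit false

namespace Pool.Agent.Results.MP_1f58a3_an.NoConstant

open Set Filter Topology
open scoped ENNReal

section defs
variable {𝕜 : Type} [RCLike 𝕜] {X : Type} [NormedAddCommGroup X] [NormedSpace 𝕜 X]

/-- the weak* closure of a set of functionals -/
def wclosure (S : Set (StrongDual 𝕜 X)) : Set (StrongDual 𝕜 X) :=
  {ξ | StrongDual.toWeakDual ξ ∈ closure (StrongDual.toWeakDual '' S)}

/-- `K(𝒜)`: the norm closure of the convex hull of the union of the weak* closed convex hulls -/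
def K (𝒜 : ℕ → Set (StrongDual 𝕜 X)) : Set (StrongDual 𝕜 X) :=
  closure (convexHull ℝ (⋃ k, wclosure (convexHull ℝ (𝒜 k))))

/-- the (I)-envelope of `A`: the intersection of `K(𝒜)` over all countable covers of `A` -/
def Ienv (A : Set (StrongDual 𝕜 X)) : Set (StrongDual 𝕜 X) :=
  {ξ | ∀ 𝒜 : ℕ → Set (StrongDual 𝕜 X), (⋃ k, 𝒜 k) = A → ξ ∈ K 𝒜}

/-- the norm distance of `η` from the (I)-envelope of `A` -/
noncomputable def d₁ (A : Set (StrongDual 𝕜 X)) (η : StrongDual 𝕜 X) : ℝ≥0∞ :=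
  Metric.infEDist η (Ienv A)

/-- `s_η(x) = inf_k Re η(x_k) - sup_{ξ ∈ A} limsup_k Re ξ(x_k)` -/
noncomputable def s (A : Set (StrongDual 𝕜 X)) (η : StrongDual 𝕜 X) (x : ℕ → X) : EReal :=
  (⨅ k, ((RCLike.re (η (x k)) : ℝ) : EReal)) -
    ⨆ ξ ∈ A, limsup (fun k => ((RCLike.re (ξ (x k)) : ℝ) : EReal)) atTop

/-- the supremum of `s_η(x)` over the sequences in the closed unit ball of `X` -/
noncomputable def d₂ (A : Set (StrongDual 𝕜 X)) (η : StrongDual 𝕜 X) : EReal :=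
  ⨆ x ∈ {x : ℕ → X | ∀ k, ‖x k‖ ≤ 1}, s A η x

theorem half_convex (y : X) (b : ℝ) : Convex ℝ {z : StrongDual 𝕜 X | RCLike.re (z y) ≤ b} := by
  intro u hu v hv p q hp hq hpq
  change RCLike.re (u y) ≤ b at hu
  change RCLike.re (v y) ≤ b at hv
  change RCLike.re ((p • u + q • v) y) ≤ b
  have e : RCLike.re ((p • u + q • v) y) = p * RCLike.re (u y) + q * RCLike.re (v y) := by
    rw [add_apply, smul_apply, smul_apply, map_add, RCLike.smul_re, RCLike.smul_re]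
  rw [e]
  calc p * RCLike.re (u y) + q * RCLike.re (v y) ≤ p * b + q * b :=
        add_le_add (mul_le_mul_of_nonneg_left hu hp) (mul_le_mul_of_nonneg_left hv hq)
    _ = b := by rw [← add_mul, hpq, one_mul]

theorem wclosure_le {S : Set (StrongDual 𝕜 X)} {y : X} {b : ℝ}
    (h : ∀ ξ ∈ S, RCLike.re (ξ y) ≤ b) :
    ∀ ξ ∈ wclosure (convexHull ℝ S), RCLike.re (ξ y) ≤ b := by
  intro ξ hξ
  have hcl : IsClosed {z : WeakDual 𝕜 X | RCLike.re (z y) ≤ b} :=
    isClosed_le (RCLike.continuous_re.comp (WeakDual.eval_continuous y)) continuous_const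
  have hsub : StrongDual.toWeakDual '' (convexHull ℝ S) ⊆
      {z : WeakDual 𝕜 X | RCLike.re (z y) ≤ b} := by
    rintro _ ⟨z, hz, rfl⟩
    exact convexHull_min h (half_convex y b) hz
  have := closure_minimal hsub hcl hξ
  exact this

theorem wclosure_ge {S : Set (StrongDual 𝕜 X)} {y : X} {b : ℝ}
    (h : ∀ ξ ∈ S, b ≤ RCLike.re (ξ y)) :
    ∀ ξ ∈ wclosure (convexHull ℝ S), b ≤ RCLike.re (ξ y) := by
  intro ξ hξ
  have := wclosure_le (S := S) (y := -y) (b := -b) (fun ξ hξ => by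
    rw [map_neg, map_neg]; exact neg_le_neg (h ξ hξ)) ξ hξ
  rw [map_neg, map_neg] at this
  exact neg_le_neg_iff.1 this

theorem wclosure_eq {S : Set (StrongDual 𝕜 X)} {y : X} {b : ℝ}
    (h : ∀ ξ ∈ S, RCLike.re (ξ y) = b) :
    ∀ ξ ∈ wclosure (convexHull ℝ S), RCLike.re (ξ y) = b := fun ξ hξ =>
  le_antisymm (wclosure_le (fun ξ hξ => (h ξ hξ).le) ξ hξ)
    (wclosure_ge (fun ξ hξ => (h ξ hξ).ge) ξ hξ)

theorem K_le {𝒜 : ℕ → Set (StrongDual 𝕜 X)} {y : X} {b : ℝ}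
    (h : ∀ k, ∀ ξ ∈ 𝒜 k, RCLike.re (ξ y) ≤ b) : ∀ ξ ∈ K 𝒜, RCLike.re (ξ y) ≤ b := by
  intro ξ hξ
  have hcl : IsClosed {z : StrongDual 𝕜 X | RCLike.re (z y) ≤ b} :=
    isClosed_le (RCLike.continuous_re.comp (ContinuousLinearMap.apply 𝕜 𝕜 y).continuous)
      continuous_const
  have hsub : (⋃ k, wclosure (convexHull ℝ (𝒜 k))) ⊆ {z : StrongDual 𝕜 X | RCLike.re (z y) ≤ b} := by
    intro z hz
    rw [mem_iUnion] at hz
    obtain ⟨k, hk⟩ := hz
    exact wclosure_le (h k) z hk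
  exact closure_minimal (convexHull_min hsub (half_convex y b)) hcl hξ

theorem subset_K (𝒜 : ℕ → Set (StrongDual 𝕜 X)) : (⋃ k, 𝒜 k) ⊆ K 𝒜 := by
  intro z hz
  rw [mem_iUnion] at hz
  obtain ⟨k, hk⟩ := hz
  refine subset_closure (subset_convexHull ℝ _ (mem_iUnion.2 ⟨k, ?_⟩))
  change StrongDual.toWeakDual z ∈ closure _
  exact subset_closure (mem_image_of_mem _ (subset_convexHull ℝ _ hk))

theorem subset_Ienv (A : Set (StrongDual 𝕜 X)) : A ⊆ Ienv A := by
  intro z hz 𝒜 h𝒜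
  exact subset_K 𝒜 (h𝒜.symm ▸ hz)

/-- a half-space containing `A` contains its (I)-envelope -/
theorem Ienv_le {A : Set (StrongDual 𝕜 X)} {y : X} {b : ℝ}
    (h : ∀ ξ ∈ A, RCLike.re (ξ y) ≤ b) : ∀ ξ ∈ Ienv A, RCLike.re (ξ y) ≤ b := by
  intro ξ hξ
  exact K_le (𝒜 := fun _ => A) (fun _ => h) ξ (hξ _ (iUnion_const A))

end defs

section space
variable (𝕜 : Type) [RCLike 𝕜] (Γ : Type)

/-- the Banach space `ℓ¹(Γ)` -/
abbrev L : Type := lp (fun _ : Γ => 𝕜) 1

variable {𝕜 Γ}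

theorem summable_norm (x : L 𝕜 Γ) : Summable fun i => ‖x i‖ := by
  have := (lp.memℓp x).summable (by norm_num)
  simpa using this

theorem norm_eq (x : L 𝕜 Γ) : ‖x‖ = ∑' i, ‖x i‖ := by
  have := lp.norm_eq_tsum_rpow (p := 1) (by norm_num) x
  simpa using this

theorem summable_norm_mul (f : Γ → ℝ) (hf : ∀ i, |f i| ≤ 1) (x : L 𝕜 Γ) :
    Summable fun i => ‖(f i : 𝕜) * x i‖ := by
  refine Summable.of_nonneg_of_le (fun _ => norm_nonneg _) ?_ (summable_norm x)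
  intro i
  rw [norm_mul, RCLike.norm_ofReal]
  exact mul_le_of_le_one_left (norm_nonneg _) (hf i)

theorem summable_mul (f : Γ → ℝ) (hf : ∀ i, |f i| ≤ 1) (x : L 𝕜 Γ) :
    Summable fun i => (f i : 𝕜) * x i := (summable_norm_mul f hf x).of_norm

theorem norm_tsum_le (f : Γ → ℝ) (hf : ∀ i, |f i| ≤ 1) (x : L 𝕜 Γ) (ε : ℝ)
    (h : ∀ i, x i ≠ 0 → |f i| ≤ ε) : ‖∑' i, (f i : 𝕜) * x i‖ ≤ ε * ‖x‖ := by
  refine (norm_tsum_le_tsum_norm (summable_norm_mul f hf x)).trans ?_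
  rw [norm_eq, ← tsum_mul_left]
  refine (summable_norm_mul f hf x).tsum_le_tsum ?_ ((summable_norm x).mul_left ε)
  intro i
  rw [norm_mul, RCLike.norm_ofReal]
  by_cases hx : x i = 0
  · rw [hx]; simp
  · exact mul_le_mul_of_nonneg_right (h i hx) (norm_nonneg _)

/-- the functional given by a real function bounded by one -/
noncomputable def fn (f : Γ → ℝ) (hf : ∀ i, |f i| ≤ 1) : StrongDual 𝕜 (L 𝕜 Γ) :=
  LinearMap.mkContinuous
    { toFun := fun x => ∑' i, (f i : 𝕜) * x i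
      map_add' := by
        intro x y
        rw [← (summable_mul f hf x).tsum_add (summable_mul f hf y)]
        refine tsum_congr fun i => ?_
        rw [lp.coeFn_add, Pi.add_apply, mul_add]
      map_smul' := by
        intro c x
        rw [RingHom.id_apply, smul_eq_mul, ← tsum_mul_left]
        refine tsum_congr fun i => ?_
        rw [lp.coeFn_smul, Pi.smul_apply, smul_eq_mul]
        ring } 1
    (fun x => norm_tsum_le f hf x 1 (fun i _ => hf i))

theorem fn_apply (f : Γ → ℝ) (hf : ∀ i, |f i| ≤ 1) (x : L 𝕜 Γ) :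
    fn f hf x = ∑' i, (f i : 𝕜) * x i := rfl

open Classical in
/-- the unit vectors -/
noncomputable def e (i : Γ) : L 𝕜 Γ := lp.single 1 i 1

open Classical in
theorem fn_e (f : Γ → ℝ) (hf : ∀ i, |f i| ≤ 1) (i : Γ) :
    fn f hf (e i : L 𝕜 Γ) = (f i : 𝕜) := by
  rw [fn_apply, tsum_eq_single i]
  · rw [e, lp.single_apply_self, mul_one]
  · intro j hj
    rw [e, lp.single_apply_ne 1 i _ hj, mul_zero]

open Classical in
theorem norm_e (i : Γ) : ‖(e i : L 𝕜 Γ)‖ = 1 := by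
  rw [e, lp.norm_single (by norm_num), norm_one]

theorem countable_support (x : L 𝕜 Γ) : {i | x i ≠ 0}.Countable := by
  have := (summable_norm x).countable_support
  refine this.mono ?_
  intro i hi
  simpa using hi

end space

/-! ### the countable ordinals -/

/-- the countable ordinals -/
abbrev Om : Type := (Ordinal.omega.{0} 1).ToType

open Cardinal in
theorem mk_Om : #Om = ℵ_ 1 := by
  rw [Cardinal.mk_toType, Ordinal.card_omega]

open Cardinal in
theorem not_countable_Om : ¬ (univ : Set Om).Countable := by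
  intro h
  have h1 : #Om ≤ ℵ₀ := by
    have := Cardinal.le_aleph0_iff_set_countable.2 h
    rwa [Cardinal.mk_univ] at this
  rw [mk_Om] at h1
  exact absurd h1 (not_le.2 aleph0_lt_aleph_one)

open Cardinal in
theorem countable_Iio (α : Om) : (Iio α).Countable := by
  have h : #(Iio α) < #Om := Cardinal.mk_Iio_lt α (by simp [Om])
  rw [← Cardinal.le_aleph0_iff_set_countable]
  have h1 : #Om = Order.succ ℵ₀ := by
    rw [mk_Om]; exact succ_aleph0.symm
  exact Order.lt_succ_iff.1 (h.trans_eq h1)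

theorem bounded (A : Set Om) (hA : A.Countable) : ∃ b, ∀ a ∈ A, a < b := by
  by_contra hcon
  push Not at hcon
  refine not_countable_Om ((hA.biUnion fun a _ => (countable_Iio a).insert a).mono ?_)
  intro b _
  obtain ⟨a, ha, hba⟩ := hcon b
  refine mem_biUnion ha ?_
  rcases hba.lt_or_eq with h | h
  · exact mem_insert_of_mem _ h
  · rw [h]; exact mem_insert _ _

theorem exists_inj : ∃ g : Om → Om → ℕ, ∀ β, InjOn (g β) (Iio β) := by
  have : ∀ β : Om, ∃ f : Om → ℕ, InjOn f (Iio β) := fun β =>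
    Set.countable_iff_exists_injOn.1 (countable_Iio β)
  choose g hg using this
  exact ⟨g, hg⟩

/-! ### the example -/

section example_
variable {𝕜 : Type} [RCLike 𝕜] (g : Om → Om → ℕ) (ε : ℝ)

/-- the coordinates of the functional with index `β` -/
noncomputable def co (β : Om) (i : Om × Finset ℕ) : ℝ :=
  if i.1 < β then (if g β i.1 ∈ i.2 then ε else -ε) else 1

variable {ε} (hε0 : 0 < ε) (hε1 : ε < 1)

include hε0 hε1 in
theorem co_le (β : Om) (i : Om × Finset ℕ) : |co g ε β i| ≤ 1 := by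
  unfold co
  split_ifs
  · rw [abs_of_pos hε0]; exact hε1.le
  · rw [abs_neg, abs_of_pos hε0]; exact hε1.le
  · simp

/-- the functional with index `β` -/
noncomputable def a (β : Om) : StrongDual 𝕜 (L 𝕜 (Om × Finset ℕ)) :=
  fn (co g ε β) (co_le g hε0 hε1 β)

theorem a_e (β : Om) (i : Om × Finset ℕ) :
    RCLike.re ((a g hε0 hε1 β : StrongDual 𝕜 (L 𝕜 (Om × Finset ℕ))) (e i)) = co g ε β i := by
  rw [a, fn_e, RCLike.ofReal_re]

/-- the set of functionals -/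
def A : Set (StrongDual 𝕜 (L 𝕜 (Om × Finset ℕ))) := range (a g hε0 hε1)

/-- the part of the functional at `x` seen by `n` -/
noncomputable def q (ξ : StrongDual 𝕜 (L 𝕜 (Om × Finset ℕ))) (x : Om) (F : Finset ℕ) : ℝ :=
  RCLike.re (ξ (e (x, F))) - RCLike.re (ξ (e (x, ∅)))

theorem q_a (β x : Om) (F : Finset ℕ) :
    q (a g hε0 hε1 β : StrongDual 𝕜 (L 𝕜 (Om × Finset ℕ))) x F =
      if x < β ∧ g β x ∈ F then 2 * ε else 0 := by
  rw [q, a_e, a_e]
  unfold co
  by_cases h : x < β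
  · by_cases h' : g β x ∈ F
    · simp [h, h']; ring
    · simp [h, h']
  · simp [h]

theorem q_sum_le {ξ : StrongDual 𝕜 (L 𝕜 (Om × Finset ℕ))} (hξ : ξ ∈ Ienv (A g hε0 hε1))
    (x : Om) (G : Finset ℕ) : q ξ x G ≤ ∑ n ∈ G, q ξ x {n} := by
  have key : ∀ z : StrongDual 𝕜 (L 𝕜 (Om × Finset ℕ)),
      RCLike.re (z ((e (x, G) - e (x, ∅)) - ∑ n ∈ G, (e (x, {n}) - e (x, ∅)))) =
        q z x G - ∑ n ∈ G, q z x {n} := by
    intro z
    simp only [map_sub, map_sum, q]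
  have := Ienv_le (A := A g hε0 hε1) (b := 0)
    (y := (e (x, G) - e (x, ∅)) - ∑ n ∈ G, (e (x, {n}) - e (x, ∅))) (by
      rintro _ ⟨β, rfl⟩
      rw [key, q_a]
      have : ∀ n, q (a g hε0 hε1 β : StrongDual 𝕜 (L 𝕜 (Om × Finset ℕ))) x {n} =
          if n = g β x then (if x < β then 2 * ε else 0) else 0 := by
        intro n
        rw [q_a]
        by_cases h : x < β <;> by_cases h' : n = g β x <;> simp [h, h', eq_comm]
      simp only [this, Finset.sum_ite_eq']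
      by_cases h : x < β <;> by_cases h' : g β x ∈ G <;> simp [h, h']) ξ hξ
  rw [key] at this
  linarith

theorem q_col_le (hg : ∀ β, InjOn (g β) (Iio β)) {ξ : StrongDual 𝕜 (L 𝕜 (Om × Finset ℕ))}
    (hξ : ξ ∈ Ienv (A g hε0 hε1)) (X : Finset Om) (n : ℕ) : ∑ x ∈ X, q ξ x {n} ≤ 2 * ε := by
  have key : ∀ z : StrongDual 𝕜 (L 𝕜 (Om × Finset ℕ)),
      RCLike.re (z (∑ x ∈ X, (e (x, {n}) - e (x, ∅)))) = ∑ x ∈ X, q z x {n} := by
    intro z
    simp only [map_sub, map_sum, q]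
  have := Ienv_le (A := A g hε0 hε1) (b := 2 * ε) (y := ∑ x ∈ X, (e (x, {n}) - e (x, ∅))) (by
      rintro _ ⟨β, rfl⟩
      rw [key]
      simp only [q_a, Finset.mem_singleton]
      rw [Finset.sum_ite, Finset.sum_const, Finset.sum_const_zero, add_zero, nsmul_eq_mul]
      have h1 : (X.filter fun x => x < β ∧ g β x = n).card ≤ 1 := by
        rw [Finset.card_le_one]
        intro x hx y hy
        rw [Finset.mem_filter] at hx hy
        exact hg β hx.2.1 hy.2.1 (hx.2.2.trans hy.2.2.symm)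
      have h2 : (((X.filter fun x => x < β ∧ g β x = n).card : ℕ) : ℝ) ≤ 1 := by exact_mod_cast h1
      nlinarith) ξ hξ
  rwa [key] at this

/-- the vector testing the block of `x` -/
noncomputable def yv (𝕜 : Type) [RCLike 𝕜] (ε : ℝ) (x : Om) (G : Finset ℕ) :
    L 𝕜 (Om × Finset ℕ) :=
  ((1 + ε : ℝ) : 𝕜) • e (x, G) - ((1 - ε : ℝ) : 𝕜) • e (x, ∅)

theorem re_yv (z : StrongDual 𝕜 (L 𝕜 (Om × Finset ℕ))) (x : Om) (G : Finset ℕ) :
    RCLike.re (z (yv 𝕜 ε x G)) =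
      (1 + ε) * RCLike.re (z (e (x, G))) - (1 - ε) * RCLike.re (z (e (x, ∅))) := by
  rw [yv, map_sub, map_smul, map_smul, map_sub, smul_eq_mul, smul_eq_mul, RCLike.re_ofReal_mul,
    RCLike.re_ofReal_mul]

include hε0 hε1 in
theorem norm_yv (x : Om) (G : Finset ℕ) : ‖yv 𝕜 ε x G‖ ≤ 2 := by
  rw [yv]
  refine (norm_sub_le _ _).trans ?_
  rw [norm_smul, norm_smul, norm_e, norm_e, RCLike.norm_ofReal, RCLike.norm_ofReal,
    abs_of_pos (by linarith), abs_of_pos (by linarith)]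
  linarith

theorem exists_pos {ξ : StrongDual 𝕜 (L 𝕜 (Om × Finset ℕ))} (hξ : ξ ∈ Ienv (A g hε0 hε1))
    (hn : ‖ξ‖ < 1) (x : Om) : ∃ n, 0 < q ξ x {n} := by
  classical
  -- the countable cover
  let 𝒜 : ℕ → Set (StrongDual 𝕜 (L 𝕜 (Om × Finset ℕ))) := fun k =>
    {z | ∃ β, a g hε0 hε1 β = z ∧ (if x < β then k = g β x + 1 else k = 0)}
  have hcov : (⋃ k, 𝒜 k) = A g hε0 hε1 := by
    ext z
    rw [mem_iUnion]
    constructor
    · rintro ⟨k, β, rfl, -⟩
      exact ⟨β, rfl⟩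
    · rintro ⟨β, rfl⟩
      by_cases h : x < β
      · exact ⟨g β x + 1, β, rfl, by rw [if_pos h]⟩
      · exact ⟨0, β, rfl, by rw [if_neg h]⟩
  have hK := hξ 𝒜 hcov
  -- the convex set containing all approximations
  let Q : Set (StrongDual 𝕜 (L 𝕜 (Om × Finset ℕ))) :=
    {z | ∃ F : Finset ℕ, ∀ G, F ⊆ G → RCLike.re (z (yv 𝕜 ε x G)) = 2 * ε}
  have hQ : Convex ℝ Q := by
    rintro u ⟨F, hu⟩ v ⟨F', hv⟩ b c hb hc hbc
    refine ⟨F ∪ F', fun G hG => ?_⟩
    have e1 : RCLike.re ((b • u + c • v) (yv 𝕜 ε x G)) =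
        b * RCLike.re (u (yv 𝕜 ε x G)) + c * RCLike.re (v (yv 𝕜 ε x G)) := by
      rw [add_apply, smul_apply, smul_apply, map_add, RCLike.smul_re, RCLike.smul_re]
    rw [e1, hu G (Finset.union_subset_left hG), hv G (Finset.union_subset_right hG), ← add_mul,
      hbc, one_mul]
  have hsub : (⋃ k, wclosure (convexHull ℝ (𝒜 k))) ⊆ Q := by
    intro z hz
    rw [mem_iUnion] at hz
    obtain ⟨k, hk⟩ := hz
    rcases k with _ | k
    · refine ⟨∅, fun G _ => wclosure_eq (fun ζ hζ => ?_) z hk⟩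
      obtain ⟨β, rfl, hβ⟩ := hζ
      have h : ¬ x < β := by
        intro h
        rw [if_pos h] at hβ
        omega
      rw [re_yv, a_e, a_e, co, co, if_neg h, if_neg h]
      ring
    · refine ⟨{k}, fun G hG => wclosure_eq (fun ζ hζ => ?_) z hk⟩
      obtain ⟨β, rfl, hβ⟩ := hζ
      have h : x < β := by
        by_contra h
        rw [if_neg h] at hβ
        omega
      rw [if_pos h] at hβ
      have h1 : g β x ∈ G := by
        have : g β x = k := by omega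
        rw [this]
        exact hG (Finset.mem_singleton_self k)
      have h2 : g β x ∉ (∅ : Finset ℕ) := Finset.notMem_empty _
      rw [re_yv, a_e, a_e, co, co, if_pos h, if_pos h, if_pos h1, if_neg h2]
      ring
  -- approximate
  have hδ : 0 < ε * (1 - ‖ξ‖) / 2 := by
    have : 0 < 1 - ‖ξ‖ := by linarith
    positivity
  obtain ⟨ζ, hζ, hd⟩ := Metric.mem_closure_iff.1 hK _ hδ
  obtain ⟨G, hG⟩ := convexHull_min hsub hQ hζ
  have h1 := hG G (Finset.Subset.refl G)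
  have h2 : |RCLike.re (ξ (yv 𝕜 ε x G)) - RCLike.re (ζ (yv 𝕜 ε x G))| ≤
      (ε * (1 - ‖ξ‖) / 2) * 2 := by
    rw [← map_sub, ← sub_apply]
    refine (RCLike.abs_re_le_norm _).trans ?_
    refine ((ξ - ζ).le_opNorm _).trans ?_
    rw [← dist_eq_norm]
    exact mul_le_mul hd.le (norm_yv hε0 hε1 x G) (norm_nonneg _) hδ.le
  rw [h1, re_yv] at h2
  have h3 := (abs_le.1 h2).1
  have h4 : RCLike.re (ξ (e (x, G))) ≤ ‖ξ‖ := by
    refine (RCLike.re_le_norm _).trans ?_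
    refine (ξ.le_opNorm _).trans ?_
    rw [norm_e, mul_one]
  have h5 : 0 < q ξ x G := by
    have h6 : 0 < (1 - ε) * q ξ x G := by
      rw [q]
      nlinarith
    have h7 : 0 < 1 - ε := by linarith
    exact (mul_pos_iff_of_pos_left h7).1 h6
  have h8 := q_sum_le g hε0 hε1 hξ x G
  by_contra hcon
  push Not at hcon
  have h9 : ∑ n ∈ G, q ξ x {n} ≤ 0 := Finset.sum_nonpos fun n _ => hcon n
  linarith

theorem one_le_norm (hg : ∀ β, InjOn (g β) (Iio β)) {ξ : StrongDual 𝕜 (L 𝕜 (Om × Finset ℕ))}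
    (hξ : ξ ∈ Ienv (A g hε0 hε1)) : 1 ≤ ‖ξ‖ := by
  classical
  by_contra hn
  push Not at hn
  choose n hpos using fun x => exists_pos g hε0 hε1 hξ hn x
  have hcov : (univ : Set Om) ⊆ ⋃ p : ℕ × ℕ, {x | n x = p.1 ∧ 1 / ((p.2 : ℝ) + 1) < q ξ x {p.1}} := by
    intro x _
    obtain ⟨j, hj⟩ := exists_nat_one_div_lt (hpos x)
    exact mem_iUnion.2 ⟨(n x, j), rfl, hj⟩
  have : ∃ p : ℕ × ℕ, ¬ {x | n x = p.1 ∧ 1 / ((p.2 : ℝ) + 1) < q ξ x {p.1}}.Countable := by
    by_contra hcon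
    push Not at hcon
    exact not_countable_Om ((countable_iUnion hcon).mono hcov)
  obtain ⟨⟨m, j⟩, hmj⟩ := this
  have hinf : {x | n x = m ∧ 1 / ((j : ℝ) + 1) < q ξ x {m}}.Infinite := fun h => hmj h.countable
  obtain ⟨N, hN⟩ := exists_nat_gt (2 * ε * ((j : ℝ) + 1))
  obtain ⟨X, hX, hcard⟩ := hinf.exists_subset_card_eq N
  have h1 := q_col_le g hε0 hε1 hg hξ X m
  have h2 : (N : ℝ) * (1 / ((j : ℝ) + 1)) ≤ ∑ x ∈ X, q ξ x {m} := by
    rw [← hcard, ← nsmul_eq_mul]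
    exact Finset.card_nsmul_le_sum _ _ _ fun x hx => (hX hx).2.le
  have h3 : (0 : ℝ) < (j : ℝ) + 1 := by positivity
  rw [mul_one_div] at h2
  have h4 : (N : ℝ) / ((j : ℝ) + 1) ≤ 2 * ε := h2.trans h1
  rw [div_le_iff₀ h3] at h4
  linarith

theorem one_le_d₁ (hg : ∀ β, InjOn (g β) (Iio β)) :
    1 ≤ d₁ (A g hε0 hε1) (0 : StrongDual 𝕜 (L 𝕜 (Om × Finset ℕ))) := by
  rw [d₁]
  refine Metric.le_infEDist.2 fun ξ hξ => ?_
  have := one_le_norm g hε0 hε1 hg hξ
  rw [edist_comm, edist_eq_enorm_sub, sub_zero]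
  rw [← ofReal_norm, ENNReal.one_le_ofReal]
  exact this

theorem d₂_le : d₂ (A g hε0 hε1) (0 : StrongDual 𝕜 (L 𝕜 (Om × Finset ℕ))) ≤ (ε : EReal) := by
  rw [d₂]
  refine iSup₂_le fun x hx => ?_
  -- a countable ordinal above all the supports
  obtain ⟨β, hβ⟩ := bounded (Prod.fst '' (⋃ k, {i | (x k : L 𝕜 (Om × Finset ℕ)) i ≠ 0}))
    ((countable_iUnion fun k => countable_support (x k)).image _)
  have h1 : ∀ k, -ε ≤ RCLike.re ((a g hε0 hε1 β : StrongDual 𝕜 (L 𝕜 (Om × Finset ℕ))) (x k)) := by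
    intro k
    have h2 : ‖(a g hε0 hε1 β : StrongDual 𝕜 (L 𝕜 (Om × Finset ℕ))) (x k)‖ ≤ ε * ‖x k‖ := by
      rw [a, fn_apply]
      refine norm_tsum_le _ (co_le g hε0 hε1 β) (x k) ε ?_
      intro i hi
      have h3 : i.1 < β := hβ _ (mem_image_of_mem _ (mem_iUnion.2 ⟨k, hi⟩))
      unfold co
      rw [if_pos h3]
      split_ifs
      · rw [abs_of_pos hε0]
      · rw [abs_neg, abs_of_pos hε0]
    have h4 : ε * ‖x k‖ ≤ ε := mul_le_of_le_one_right hε0.le (hx k)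
    have h5 := (abs_le.1 ((RCLike.abs_re_le_norm _).trans (h2.trans h4))).1
    exact h5
  have h6 : ((-ε : ℝ) : EReal) ≤ ⨆ ξ ∈ A g hε0 hε1,
      limsup (fun k => ((RCLike.re (ξ (x k)) : ℝ) : EReal)) atTop := by
    refine le_trans ?_ (le_iSup₂ (f := fun ξ (_ : ξ ∈ A g hε0 hε1) =>
      limsup (fun k => ((RCLike.re (ξ (x k)) : ℝ) : EReal)) atTop) (a g hε0 hε1 β) ⟨β, rfl⟩)
    rw [← limsup_const (f := (atTop : Filter ℕ)) ((-ε : ℝ) : EReal)]
    exact limsup_le_limsup (Eventually.of_forall fun k => EReal.coe_le_coe_iff.2 (h1 k))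
  rw [s]
  have h7 : (⨅ k, ((RCLike.re ((0 : StrongDual 𝕜 (L 𝕜 (Om × Finset ℕ))) (x k)) : ℝ) : EReal)) = 0 := by
    simp
  rw [h7, zero_sub]
  have := EReal.neg_le_neg_iff.2 h6
  refine this.trans ?_
  rw [← EReal.coe_neg, neg_neg]

end example_

/-- Negative answer to Q1: there is one Banach space `X` over `𝕜 = ℝ` or `ℂ` such that for every
`c ≥ 1` there are a set `A` in the dual unit ball and `η` with `d₁(η) > c d₂(η)`. -/
theorem result (𝕜 : Type) [RCLike 𝕜] :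
    ∃ (X : Type) (_ : NormedAddCommGroup X) (_ : NormedSpace 𝕜 X) (_ : CompleteSpace X),
      ∀ c : ℝ, 1 ≤ c → ∃ (A : Set (StrongDual 𝕜 X)) (η : StrongDual 𝕜 X),
        (∀ ξ ∈ A, ‖ξ‖ ≤ 1) ∧ (c : EReal) * d₂ A η < (d₁ A η : EReal) := by
  refine ⟨L 𝕜 (Om × Finset ℕ), inferInstance, inferInstance, inferInstance, fun c hc => ?_⟩
  obtain ⟨g, hg⟩ := exists_inj
  have hε0 : 0 < 1 / (2 * c) := by positivity
  have hε1 : 1 / (2 * c) < 1 := by
    rw [div_lt_one (by positivity)]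
    linarith
  refine ⟨A g hε0 hε1, 0, ?_, ?_⟩
  · rintro _ ⟨β, rfl⟩
    exact ContinuousLinearMap.opNorm_le_bound _ zero_le_one fun x =>
      norm_tsum_le _ (co_le g hε0 hε1 β) x 1 fun i _ => co_le g hε0 hε1 β i
  · have h1 : (c : EReal) * d₂ (A g hε0 hε1) (0 : StrongDual 𝕜 (L 𝕜 (Om × Finset ℕ))) ≤
        (c : EReal) * ((1 / (2 * c) : ℝ) : EReal) :=
      mul_le_mul_of_nonneg_left (d₂_le g hε0 hε1) (by exact_mod_cast (by linarith : (0:ℝ) ≤ c))
    have h2 : (c : EReal) * ((1 / (2 * c) : ℝ) : EReal) = ((1 / 2 : ℝ) : EReal) := by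
      rw [← EReal.coe_mul]
      congr 1
      field_simp
    have h3 : ((1 / 2 : ℝ) : EReal) < (1 : EReal) := by
      rw [← EReal.coe_one, EReal.coe_lt_coe_iff]
      norm_num
    have h4 : (1 : EReal) ≤ (d₁ (A g hε0 hε1) (0 : StrongDual 𝕜 (L 𝕜 (Om × Finset ℕ))) : EReal) := by
      have := one_le_d₁ (𝕜 := 𝕜) g hε0 hε1 hg
      exact_mod_cast this
    calc _ ≤ _ := h1
      _ = _ := h2
      _ < _ := h3
      _ ≤ _ := h4

end Pool.Agent.Results.MP_1f58a3_an.NoConstant
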